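import Mathlib
import Pool.Agent.J6H78.PS.Alg

set_option autoImplicit false

/-!
# The property (**) is not productive

`StarStar`, `IsBeta`, `IsCompactification`, `IsLarge`, `GdeltaClosed` are defined in
`Pool/Agent/V11218/LC1.lean`:

* `IsCompactification (e : X → K)`: `K` is compact Hausdorff, `e` is a topological embedding with
  dense range;
* `IsBeta (e : X → K)`: some homeomorphism `StoneCech X ≃ₜ K` carries `stoneCechUnit` to `e`;
* `IsLarge (e : X → K)`: for each open `V ⊆ K` containing the range of `e`, the inclusion
  `V → K` satisfies `IsBeta`;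
* `GdeltaClosed (e : X → K)`: each point outside the range of `e` lies in a `G_δ` set disjoint
  from the range;
* `StarStar X`: every large compactification of `X` in which `X` is `G_δ`-closed is `β X`.
-/

namespace Pool.Agent.Results.MP_d80aff_gt.NotProductive

open Set Filter Topology Pool.Agent.V11218.LC Pool.Agent.J6H78.PS

/-- There are a Lindelöf Tychonoff space `M` and a second countable Tychonoff (thus separable
metrizable) space `Y`, both with (**), such that `M × Y` fails (**). In particular some family
(with two members) of Tychonoff spaces satisfying (**) has a product that fails (**). -/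
theorem result :
    (∃ (M Y : Type) (_ : TopologicalSpace M) (_ : TopologicalSpace Y),
      T35Space M ∧ LindelofSpace M ∧ StarStar M ∧
      T35Space Y ∧ SecondCountableTopology Y ∧ StarStar Y ∧
      ¬ StarStar (M × Y)) ∧
    ∃ (I : Type) (Z : I → Type) (_ : ∀ i, TopologicalSpace (Z i)), Finite I ∧
      (∀ i, T35Space (Z i)) ∧ (∀ i, StarStar (Z i)) ∧ ¬ StarStar (∀ i, Z i) := by
  obtain ⟨R, hR0, hR⟩ := Pool.Agent.W642.HG.exists_bernstein
  have hL : LindelofSpace (Mi R) := Mi.lindelof hR
  have h1 : StarStar (Mi R) := starStar_of_lindelof _
  have h2 : StarStar (Qt R × unitInterval) := starStar_of_lindelof _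
  have h3 : ¬ StarStar (Mi R × (Qt R × unitInterval)) := not_starStar_XX hR0 hR
  refine ⟨⟨Mi R, Qt R × unitInterval, inferInstance, inferInstance, inferInstance, hL, h1,
    inferInstance, inferInstance, h2, h3⟩, ?_⟩
  let Z : Fin 2 → Type := fun i => match i with
    | 0 => Mi R
    | 1 => Qt R × unitInterval
  let tZ : ∀ i, TopologicalSpace (Z i) := fun i => match i with
    | 0 => (inferInstance : TopologicalSpace (Mi R))
    | 1 => (inferInstance : TopologicalSpace (Qt R × unitInterval))
  refine ⟨Fin 2, Z, tZ, inferInstance, ?_, ?_, ?_⟩
  · intro i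
    match i with
    | 0 => exact (inferInstance : T35Space (Mi R))
    | 1 => exact (inferInstance : T35Space (Qt R × unitInterval))
  · intro i
    match i with
    | 0 => exact h1
    | 1 => exact h2
  · intro h
    exact h3 (StarStar.of_homeo (Homeomorph.piFinTwo Z).symm h)

end Pool.Agent.Results.MP_d80aff_gt.NotProductive
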